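import Mathlib
import Pool.Agent.Results.MP_e0d2b2_an.Main
set_option autoImplicit false

/-!
# Square-zero operators on spaces of every dimension `d ≥ 2`
-/

universe u

namespace Y840RP

open Pool.Agent.Results.MP_e0d2b2_an.Main

section nil

variable {A : Type*} [NormedRing A] [NormedAlgebra ℂ A]

lemma inv_formula' (T : A) (hT : T * T = 0) (z : ℂ) (hz : z ≠ 0) :
    (algebraMap ℂ A z - T) * (z⁻¹ • (1 + z⁻¹ • T)) = 1 ∧
    (z⁻¹ • (1 + z⁻¹ • T)) * (algebraMap ℂ A z - T) = 1 := by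
  rw [Algebra.algebraMap_eq_smul_one]
  constructor
  · rw [mul_smul_comm, sub_mul, mul_add, mul_add, mul_one, mul_one, mul_smul_comm, mul_smul_comm, hT,
      smul_mul_assoc, one_mul, smul_smul]
    rw [inv_mul_cancel₀ hz, smul_zero, one_smul, add_zero, add_sub_cancel_right, smul_smul,
      inv_mul_cancel₀ hz, one_smul]
  · rw [smul_mul_assoc, mul_sub, add_mul, add_mul, one_mul, one_mul, mul_smul_comm, mul_one,
      smul_mul_assoc, hT, smul_smul, mul_inv_cancel₀ hz, smul_zero, one_smul, add_zero,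
      add_sub_cancel_right, smul_smul, inv_mul_cancel₀ hz, one_smul]

lemma resolvent_eq' (T : A) (hT : T * T = 0) (z : ℂ) (hz : z ≠ 0) :
    resolvent T z = z⁻¹ • (1 + z⁻¹ • T) := by
  obtain ⟨h1, h2⟩ := inv_formula' T hT z hz
  exact Ring.inverse_unit ⟨_, _, h1, h2⟩

lemma spectrum_sub' (T : A) (hT : T * T = 0) : spectrum ℂ T ⊆ Metric.ball (0:ℂ) 1 := by
  intro z hz
  by_cases h0 : z = 0
  · subst h0; simp
  · exfalso
    obtain ⟨h1, h2⟩ := inv_formula' T hT z h0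
    exact hz ⟨⟨_, _, h1, h2⟩, rfl⟩

lemma resolvent_bound' (T : A) (hT : T * T = 0) (K : ℝ)
    (hK : ∀ w : ℂ, ‖w‖ ≤ 1 → ‖1 + w • T‖ ≤ K) (z : ℂ) (hz : 1 ≤ ‖z‖) :
    ‖resolvent T z‖ ≤ K := by
  have h0 : z ≠ 0 := by
    rintro rfl; simp at hz; linarith
  have hinv : ‖z⁻¹‖ ≤ 1 := by
    rw [norm_inv]; exact inv_le_one_of_one_le₀ hz
  rw [resolvent_eq' T hT z h0, norm_smul]
  calc ‖z⁻¹‖ * ‖1 + z⁻¹ • T‖ ≤ 1 * K :=
        mul_le_mul hinv (hK _ hinv) (norm_nonneg _) (by norm_num)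
    _ = _ := one_mul _

end nil

lemma finrank_X2 (c : ℝ) : Module.finrank ℂ (X2.{u} c) = 2 := by
  have h : Module.finrank ℂ (ULift.{u} (ℂ × ℂ)) = 2 := by
    rw [(ULift.moduleEquiv (R := ℂ) (M := ℂ × ℂ)).finrank_eq, Module.finrank_prod,
      Module.finrank_self]
  exact h

/-- the space of dimension `k + 2` -/
abbrev XX (c : ℝ) (k : ℕ) : Type u := X2.{u} c × (Fin k → ℂ)

lemma finrank_XX (c : ℝ) (k : ℕ) : Module.finrank ℂ (XX.{u} c k) = k + 2 := by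
  rw [Module.finrank_prod, finrank_X2, Module.finrank_fin_fun, add_comm]

section

variable (c : ℝ) [hc : Fact (0 < c)] (k : ℕ)

/-- the operator `T ⊕ 0` -/
noncomputable def TT : XX.{u} c k →L[ℂ] XX.{u} c k :=
  ContinuousLinearMap.prodMap (X2.T : X2.{u} c →L[ℂ] X2.{u} c) 0

lemma TT_apply (v : XX.{u} c k) : TT c k v = (X2.T v.1, 0) := rfl

lemma TT_sq : TT.{u} c k * TT c k = 0 := by
  refine ContinuousLinearMap.ext fun v => ?_
  have h := congrArg (fun S : X2.{u} c →L[ℂ] X2.{u} c => S v.1) (X2.T_sq (c := c))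
  have h' : X2.T (X2.T v.1) = (0 : X2.{u} c) := h
  have h2 : (TT.{u} c k * TT c k) v = (X2.T (X2.T v.1), 0) := by
    show TT c k (TT c k v) = _
    rw [TT_apply, TT_apply]
  rw [h2, h']
  rfl

lemma TT_norm_ge : Real.exp 1 * c ≤ ‖TT.{u} c k‖ := by
  refine (X2.T_norm (c := c)).trans ?_
  refine ContinuousLinearMap.opNorm_le_bound _ (norm_nonneg _) fun v => ?_
  have h1 := (TT.{u} c k).le_opNorm (v, 0)
  rw [TT_apply] at h1
  have h2 : ‖((v, 0) : XX.{u} c k)‖ = ‖v‖ := by simp [Prod.norm_def]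
  have h3 : ‖((X2.T v, 0) : XX.{u} c k)‖ = ‖X2.T v‖ := by simp [Prod.norm_def]
  rw [h2] at h1
  exact h3 ▸ h1

lemma TT_norm_le : ‖TT.{u} c k‖ ≤ Real.exp 1 * c := by
  have hc' := hc.out
  refine ContinuousLinearMap.opNorm_le_bound _ (by positivity) fun v => ?_
  rw [TT_apply]
  have h3 : ‖((X2.T v.1, 0) : XX.{u} c k)‖ = ‖X2.T v.1‖ := by simp [Prod.norm_def]
  rw [h3]
  calc ‖X2.T v.1‖ ≤ (Real.exp 1 * c) * ‖v.1‖ := X2.Tlin_bound v.1
    _ ≤ (Real.exp 1 * c) * ‖v‖ := mul_le_mul_of_nonneg_left (norm_fst_le v) (by positivity)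

lemma TT_norm : ‖TT.{u} c k‖ = Real.exp 1 * c := le_antisymm (TT_norm_le c k) (TT_norm_ge c k)

lemma one_add_bound' (w : ℂ) (hw : ‖w‖ ≤ 1) : ‖1 + w • TT.{u} c k‖ ≤ Real.exp c := by
  refine ContinuousLinearMap.opNorm_le_bound _ (Real.exp_pos _).le fun v => ?_
  have e1 : (1 + w • TT.{u} c k) v
      = ((1 + w • X2.T : X2.{u} c →L[ℂ] X2.{u} c) v.1, v.2) := by
    have : (1 + w • TT.{u} c k) v = v + w • TT c k v := by simp
    rw [this, TT_apply]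
    ext1 <;> simp
  rw [e1, Prod.norm_def]
  have hc' := hc.out
  have h1 : (1 : ℝ) ≤ Real.exp c := Real.one_le_exp hc'.le
  refine max_le ?_ ?_
  · calc ‖(1 + w • X2.T : X2.{u} c →L[ℂ] X2.{u} c) v.1‖
        ≤ ‖(1 + w • X2.T : X2.{u} c →L[ℂ] X2.{u} c)‖ * ‖v.1‖ := ContinuousLinearMap.le_opNorm _ _
      _ ≤ Real.exp c * ‖v‖ :=
        mul_le_mul (X2.one_add_bound w hw) (norm_fst_le v) (norm_nonneg _) (Real.exp_pos _).le
  · calc ‖v.2‖ ≤ ‖v‖ := norm_snd_le v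
      _ ≤ Real.exp c * ‖v‖ := le_mul_of_one_le_left (norm_nonneg _) h1

lemma TT_resolvent (z : ℂ) (hz : 1 ≤ ‖z‖) : ‖resolvent (TT.{u} c k) z‖ ≤ Real.exp c :=
  resolvent_bound' _ (TT_sq c k) _ (one_add_bound' c k) z hz

end

end Y840RP
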