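import Mathlib
import Pool.Agent.Results.MP_e0d2b2_an.Main
set_option autoImplicit false

/-!
# Strict form of the summed power bound

The numerical part of `Pool.Agent.Results.MP_e0d2b2_an.Main`, with strict inequalities.
-/

namespace Y840RP

open Finset Pool.Agent.Results.MP_e0d2b2_an.Main

lemma poly_small_strict (x E : ℝ) (hx : 0 < x) (hx1 : x ≤ 1 / 6) (hE : 2.7 < E) (hE2 : E < 2.7183)
    (a : ℝ) (ha0 : 0 ≤ a) (ha : a ≤ E * x * (1 - x / 2 + 11 / 24 * x ^ 2)) :
    a + a ^ 2 * (1 / (2 * (1 - x))) < E * x * (1 + x) := by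
  set u := 1 - x / 2 + 11 / 24 * x ^ 2 with hu
  have hu0 : 0 < u := by rw [hu]; nlinarith
  have hEx : 0 < E * x := by positivity
  have h1x : 0 < 1 - x := by linarith
  have h1 : a ^ 2 ≤ (E * x * u) ^ 2 := pow_le_pow_left₀ ha0 ha 2
  have h2 : a + a ^ 2 * (1 / (2 * (1 - x))) ≤ E * x * u + (E * x * u) ^ 2 * (1 / (2 * (1 - x))) := by
    apply add_le_add ha
    apply mul_le_mul_of_nonneg_right h1 (by positivity)
  refine h2.trans_lt ?_
  have h3 : E * x * u + (E * x * u) ^ 2 * (1 / (2 * (1 - x))) = E * x * (u + E * x * u ^ 2 / (2 * (1 - x))) := by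
    field_simp
  rw [h3]
  apply mul_lt_mul_of_pos_left _ hEx
  have hu2 : u ^ 2 ≤ 1 - x + 7 / 6 * x ^ 2 := by
    rw [hu]
    have : 0 ≤ x ^ 3 * (11 / 24 - 121 / 576 * x) := by
      apply mul_nonneg (by positivity); linarith
    nlinarith
  have h4 : E * x * u ^ 2 / (2 * (1 - x)) < 1 + x - u := by
    rw [div_lt_iff₀ (by positivity)]
    have h5 : E * x * u ^ 2 < 2.7183 * x * (1 - x + 7 / 6 * x ^ 2) := by
      have h50 : E * x < 2.7183 * x := by nlinarith
      have h51 : 0 < u ^ 2 := by positivity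
      calc E * x * u ^ 2 < 2.7183 * x * u ^ 2 := mul_lt_mul_of_pos_right h50 h51
        _ ≤ _ := mul_le_mul_of_nonneg_left hu2 (by positivity)
    refine h5.trans_le ?_
    have h6 : (1 + x - u) * (2 * (1 - x)) = x * ((3 / 2 - 11 / 24 * x) * (2 * (1 - x))) := by
      rw [hu]; ring
    rw [h6, show 2.7183 * x * (1 - x + 7 / 6 * x ^ 2) = x * (2.7183 * (1 - x + 7 / 6 * x ^ 2)) by ring]
    apply mul_le_mul_of_nonneg_left _ hx.le
    nlinarith
  linarith

section
variable (t : ℕ → ℝ) (M : ℝ)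
variable (ht : ∀ j, 0 ≤ t j) (H : ∀ k j, ((j + k).choose k : ℝ) * t j ≤ M ^ (k + 1))
include ht H

lemma small_range_strict (h1 : 1 < M) (h2 : M ≤ 7 / 6) :
    ∑' i, t (i + 1) < Real.exp 1 * M * (M - 1) := by
  set x := M - 1 with hx
  have hx0 : 0 < x := by rw [hx]; linarith
  have hx1 : x ≤ 1 / 6 := by rw [hx]; linarith
  have hM : M = 1 + x := by rw [hx]; ring
  set N := ⌈1 / x⌉₊ with hN
  have hN1 : 1 / x ≤ N := Nat.le_ceil _
  have hN2 : (N : ℝ) ≤ 1 / x + 1 := (Nat.ceil_lt_add_one (by positivity)).le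
  have h6 : 6 ≤ 1 / x := by rw [le_div_iff₀ hx0]; linarith
  have hN6 : 6 ≤ N := by
    have : (6:ℝ) ≤ N := le_trans h6 hN1
    exact_mod_cast this
  have hNpos : (0:ℝ) < N := by linarith
  clear_value N
  set a := M ^ N / N with ha
  have ha0 : 0 ≤ a := by rw [ha, hM]; positivity
  have ha1 : a ≤ Real.exp 1 * x * (1 - x / 2 + 11 / 24 * x ^ 2) := by
    rw [ha, hM]; exact main_small x hx0 hx1 N hN1 hN2
  -- first term
  have hb1 : t 1 ≤ a := by
    have := H (N - 1) 1
    have e1 : (1 + (N - 1)).choose (N - 1) = N := by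
      obtain ⟨m, rfl⟩ : ∃ m, N = m + 1 := ⟨N - 1, by omega⟩
      simp [add_comm 1 m]
    rw [e1, show N - 1 + 1 = N by omega] at this
    rw [ha, le_div_iff₀ hNpos]; linarith
  have hb2 := (tail_bound t M ht (2 * N - 1) (by omega) (H (2 * N - 1)) 1).2
  have e2 : ((1 + (2 * N - 1)).choose (2 * N - 1 - 1) : ℝ) = N * (2 * N - 1) := by
    obtain ⟨m, rfl⟩ : ∃ m, N = m + 1 := ⟨N - 1, by omega⟩
    have e3 : 1 + (2 * (m + 1) - 1) = 2 * m + 2 := by omega
    have e4 : 2 * (m + 1) - 1 - 1 = 2 * m := by omega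
    rw [e3, e4]
    have e5 : (2 * m + 2).choose (2 * m) = (2 * m + 2).choose 2 := Nat.choose_symm_of_eq_add rfl
    rw [e5, Nat.cast_choose_two]
    push_cast; ring
  have e6 : ((2 * N - 1 : ℕ) : ℝ) = 2 * N - 1 := by
    rw [Nat.cast_sub (by omega)]; push_cast; ring
  rw [e2, e6] at hb2
  have e7 : 2 * N - 1 + 1 = 2 * N := by omega
  rw [e7] at hb2
  have hN1' : (0:ℝ) < N - 1 := by
    have : (6:ℝ) ≤ N := by exact_mod_cast hN6
    linarith
  have e8 : M ^ (2 * N) * ((2 * (N:ℝ) - 1) / ((2 * N - 1 - 1) * (N * (2 * N - 1)))) = a ^ 2 * (N / (2 * (N - 1))) := by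
    have h21 : (0:ℝ) < 2 * N - 1 := by linarith
    have h22 : (2 * (N:ℝ) - 1 - 1) ≠ 0 := by
      have : 2 * (N:ℝ) - 1 - 1 = 2 * (N - 1) := by ring
      rw [this]; positivity
    rw [ha, mul_comm 2 N, pow_mul, div_pow, ← pow_mul, mul_comm N 2]
    have h23 : (2 * (N:ℝ) - 1 - 1) = 2 * (N - 1) := by ring
    rw [h23]
    field_simp
  rw [e8] at hb2
  have hb3 : (N:ℝ) / (2 * (N - 1)) ≤ 1 / (2 * (1 - x)) := by
    rw [div_le_div_iff₀ (by positivity) (by linarith)]
    have : 1 ≤ x * N := by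
      have := mul_le_mul_of_nonneg_left hN1 hx0.le
      rwa [mul_one_div, div_self hx0.ne'] at this
    nlinarith
  have hb4 : a ^ 2 * (N / (2 * (N - 1))) ≤ a ^ 2 * (1 / (2 * (1 - x))) :=
    mul_le_mul_of_nonneg_left hb3 (by positivity)
  have hfin := poly_small_strict x (Real.exp 1) hx0 hx1 (by have := Real.exp_one_gt_d9; linarith)
    (by have := Real.exp_one_lt_d9; linarith) a ha0 ha1
  rw [split_sum t M ht H 1]
  simp only [sum_range_one, zero_add]
  calc t 1 + ∑' i, t (i + 1 + 1) ≤ a + a ^ 2 * (1 / (2 * (1 - x))) := by linarith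
    _ < Real.exp 1 * x * (1 + x) := hfin
    _ = Real.exp 1 * M * x := by rw [hM]; ring

lemma numeric_strict (hM : 1 < M) : ∑' i, t (i + 1) < Real.exp 1 * M * (M - 1) := by
  have hE : 2.718 * M * (M - 1) < Real.exp 1 * M * (M - 1) := by
    have := Real.exp_one_gt_d9
    have h1 : 0 < M * (M - 1) := mul_pos (by linarith) (by linarith)
    nlinarith
  rcases le_total M (7/6) with h7 | h7
  · exact small_range_strict t M ht H hM h7
  refine lt_of_le_of_lt ?_ hE
  rcases le_total M (6/5) with h8 | h8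
  · exact int1 t M ht H h7 h8
  rcases le_total M (5/4) with h9 | h9
  · exact int2 t M ht H h8 h9
  rcases le_total M (4/3) with h10 | h10
  · exact int3 t M ht H h9 h10
  rcases le_total M (3/2) with h11 | h11
  · exact int4 t M ht H h10 h11
  rcases le_total M (7/4) with h12 | h12
  · exact int5 t M ht H h11 h12
  rcases le_total M 2 with h13 | h13
  · exact int6 t M ht H h12 h13
  rcases le_total M 3 with h14 | h14
  · exact int7 t M ht H h13 h14
  rcases le_total M 4 with h15 | h15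
  · exact int8 t M ht H h14 h15
  exact large_range t M ht H h15

end

end Y840RP
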